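import Pool.Agent.V11219.DP8

/-!
# MP_c2298c_an: weak compactness of a Dyson-Phillips term does not give compactness of later ones

We disprove the implication of Q1 for unbounded perturbations.

Example (on `L^1([-1,1])`): `T φ = - h φ` with `h = m` on `(1/(m+1), 1/m]` and `h = 0` on
`[-1,0]`, and `B φ = ∑_m (m/4) (∫_{h = m} φ) (e_m + ψ_m)`, where `e_m` is the normalised indicator
of `{h = m}` and `ψ_m = 1 + cos (2 π (m+1) x)` on `[-1,0)`.
-/

open MeasureTheory

namespace Pool.Agent.Results.MP_c2298c_an.NoTransfer

open Pool.Agent.V11219.DP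

/-- **Main result.** There are a measure space `(Ω, ν)`, a substochastic `C_0`-semigroup `U` on
`L^1(ν)` with generator `T`, a perturbation `B` as in the problem and its Dyson-Phillips terms
`U_j(t)` such that for every `n ≥ 1`: `U_n(t)` is weakly compact for every `t ≥ 0`, but
`U_{2n+1}(t)` is not compact for any `t > 0`, and `t ↦ U_{2n+2}(t)` is not continuous in operator
norm on `[0, ∞)`. (In particular, the implication of Q1 fails for every `n ≥ 1`.) -/
theorem result : ∃ (Ω : Type) (_ : MeasurableSpace Ω) (ν : Measure Ω),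
    HasCounterexample (Lp ℝ 1 ν) := by
  refine ⟨ℝ, inferInstance, nu, UU theSys, BB theSys, TT theSys, isSemigroup _,
    isPerturbation _, isDysonPhillips _, fun n hn => ⟨fun t ht => ?_, fun t ht => ?_, ?_⟩⟩
  · obtain ⟨j, rfl⟩ : ∃ j, n = j + 1 := ⟨n - 1, by omega⟩
    exact weakly_compact j t ht
  · exact not_compact (2 * n) t ht
  · exact not_cont (2 * n + 1)

end Pool.Agent.Results.MP_c2298c_an.NoTransfer
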